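import Mathlib

/-!
# A bilinear form over a hyperbola, by bisection
-/

namespace Pool.Agent.helper85.SQ

open Finset

lemma HY_sqrt_add_le {a b c d : ℝ} (ha : 0 ≤ a) (hb : 0 ≤ b) (hc : 0 ≤ c) (hd : 0 ≤ d) :
    √(a * b) + √(c * d) ≤ √((a + c) * (b + d)) := by
  apply Real.le_sqrt_of_sq_le
  have h1 := Real.sq_sqrt (mul_nonneg ha hb)
  have h2 := Real.sq_sqrt (mul_nonneg hc hd)
  have h3 : √(a * b) * √(c * d) = √(a * d) * √(c * b) := by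
    rw [← Real.sqrt_mul (mul_nonneg ha hb), ← Real.sqrt_mul (mul_nonneg ha hd)]
    congr 1
    ring
  have h4 := Real.sq_sqrt (mul_nonneg ha hd)
  have h5 := Real.sq_sqrt (mul_nonneg hc hb)
  nlinarith [sq_nonneg (√(a * d) - √(c * b))]

/-- the bound for a box. -/
noncomputable def HY_bd (D : ℝ) (α β : ℕ → ℝ) (m₀ m₁ n₀ n₁ : ℕ) : ℝ :=
  √((((m₁ - m₀ : ℕ) : ℝ) + D) * (((n₁ - n₀ : ℕ) : ℝ) + D)
          * (∑ m ∈ Ioc m₀ m₁, α m ^ 2) * (∑ n ∈ Ioc n₀ n₁, β n ^ 2))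

lemma HY_bd_nonneg (D : ℝ) (α β : ℕ → ℝ) (m₀ m₁ n₀ n₁ : ℕ) : 0 ≤ HY_bd D α β m₀ m₁ n₀ n₁ :=
  Real.sqrt_nonneg _

lemma HY_bd_mono (D : ℝ) (hD : 0 ≤ D) (α β : ℕ → ℝ) {m₀ m₁ n₀ n₁ m₀' m₁' n₀' n₁' : ℕ}
    (h1 : m₀' ≤ m₀) (h2 : m₁ ≤ m₁') (h3 : n₀' ≤ n₀) (h4 : n₁ ≤ n₁') :
    HY_bd D α β m₀ m₁ n₀ n₁ ≤ HY_bd D α β m₀' m₁' n₀' n₁' := by
  have e1 : ∑ m ∈ Ioc m₀ m₁, α m ^ 2 ≤ ∑ m ∈ Ioc m₀' m₁', α m ^ 2 :=
    sum_le_sum_of_subset_of_nonneg (Ioc_subset_Ioc h1 h2) fun _ _ _ => sq_nonneg _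
  have e2 : ∑ m ∈ Ioc n₀ n₁, β m ^ 2 ≤ ∑ m ∈ Ioc n₀' n₁', β m ^ 2 :=
    sum_le_sum_of_subset_of_nonneg (Ioc_subset_Ioc h3 h4) fun _ _ _ => sq_nonneg _
  have e3 : (((m₁ - m₀ : ℕ) : ℝ)) ≤ ((m₁' - m₀' : ℕ) : ℝ) := by
    exact_mod_cast (by omega : m₁ - m₀ ≤ m₁' - m₀')
  have e4 : (((n₁ - n₀ : ℕ) : ℝ)) ≤ ((n₁' - n₀' : ℕ) : ℝ) := by
    exact_mod_cast (by omega : n₁ - n₀ ≤ n₁' - n₀')
  have f1 : 0 ≤ ∑ m ∈ Ioc m₀ m₁, α m ^ 2 := sum_nonneg fun _ _ => sq_nonneg _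
  have f2 : 0 ≤ ∑ m ∈ Ioc n₀ n₁, β m ^ 2 := sum_nonneg fun _ _ => sq_nonneg _
  apply Real.sqrt_le_sqrt
  gcongr

/-- two boxes with disjoint projections. -/
lemma HY_bd_add (D : ℝ) (hD : 0 ≤ D) (α β : ℕ → ℝ) {m₀ mc m₁ n₀ nc n₁ : ℕ}
    (h1 : m₀ ≤ mc) (h2 : mc ≤ m₁) (h3 : n₀ ≤ nc) (h4 : nc ≤ n₁) :
    HY_bd D α β m₀ mc nc n₁ + HY_bd D α β mc m₁ n₀ nc ≤ HY_bd D α β m₀ m₁ n₀ n₁ := by
  set K := (((m₁ - m₀ : ℕ) : ℝ) + D) * (((n₁ - n₀ : ℕ) : ℝ) + D) with hK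
  have hK0 : 0 ≤ K := by positivity
  have g : ∀ a b c d : ℕ, m₀ ≤ a → b ≤ m₁ → n₀ ≤ c → d ≤ n₁ →
      HY_bd D α β a b c d ≤ √(K * ((∑ m ∈ Ioc a b, α m ^ 2) * (∑ n ∈ Ioc c d, β n ^ 2))) := by
    intro a b c d ha hb hc hd
    have e3 : (((b - a : ℕ) : ℝ)) ≤ ((m₁ - m₀ : ℕ) : ℝ) := by
      exact_mod_cast (by omega : b - a ≤ m₁ - m₀)
    have e4 : (((d - c : ℕ) : ℝ)) ≤ ((n₁ - n₀ : ℕ) : ℝ) := by
      exact_mod_cast (by omega : d - c ≤ n₁ - n₀)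
    have f1 : 0 ≤ ∑ m ∈ Ioc a b, α m ^ 2 := sum_nonneg fun _ _ => sq_nonneg _
    have f2 : 0 ≤ ∑ m ∈ Ioc c d, β m ^ 2 := sum_nonneg fun _ _ => sq_nonneg _
    apply Real.sqrt_le_sqrt
    rw [mul_assoc]
    refine mul_le_mul_of_nonneg_right ?_ (mul_nonneg f1 f2)
    rw [hK]
    gcongr
  refine (add_le_add (g m₀ mc nc n₁ le_rfl h2 h3 le_rfl) (g mc m₁ n₀ nc h1 le_rfl le_rfl h4)).trans ?_
  have f : ∀ a b : ℕ, ∀ γ : ℕ → ℝ, 0 ≤ ∑ m ∈ Ioc a b, γ m ^ 2 :=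
    fun a b γ => sum_nonneg fun _ _ => sq_nonneg _
  rw [Real.sqrt_mul hK0, Real.sqrt_mul hK0, ← mul_add]
  have key := HY_sqrt_add_le (f m₀ mc α) (f nc n₁ β) (f mc m₁ α) (f n₀ nc β)
  have e1 : ∑ m ∈ Ioc m₀ mc, α m ^ 2 + ∑ m ∈ Ioc mc m₁, α m ^ 2 = ∑ m ∈ Ioc m₀ m₁, α m ^ 2 :=
    sum_Ioc_consecutive _ h1 h2
  have e2 : ∑ m ∈ Ioc nc n₁, β m ^ 2 + ∑ m ∈ Ioc n₀ nc, β m ^ 2 = ∑ m ∈ Ioc n₀ n₁, β m ^ 2 := by
    rw [add_comm]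
    exact sum_Ioc_consecutive _ h3 h4
  rw [e1, e2] at key
  refine (mul_le_mul_of_nonneg_left key (Real.sqrt_nonneg K)).trans_eq ?_
  rw [← Real.sqrt_mul hK0, HY_bd, ← hK, mul_assoc K]

/-! ### sq:HY (the hyperbola, abstract) -/
theorem hyper (P : Finset ℕ) (κ : ℕ → ℕ → ℝ) (A D : ℝ) (hA : 0 ≤ A) (hD : 0 ≤ D)
    (α β : ℕ → ℝ)
    (hbil : ∀ M₁ M₂ N₁ N₂ : ℕ, M₁ ≤ M₂ → N₁ ≤ N₂ →
      ∑ p ∈ P, |∑ m ∈ Ioc M₁ M₂, ∑ n ∈ Ioc N₁ N₂, α m * β n * κ p (m * n)|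
        ≤ A * √((((M₂ - M₁ : ℕ) : ℝ) + D) * (((N₂ - N₁ : ℕ) : ℝ) + D)
          * (∑ m ∈ Ioc M₁ M₂, α m ^ 2) * (∑ n ∈ Ioc N₁ N₂, β n ^ 2)))
    (x M J : ℕ) (hM : 0 < M) (hJ : M ≤ 2 ^ J) :
    ∑ p ∈ P, |∑ m ∈ Ioc M (2 * M), ∑ n ∈ Ioc 0 (x / m), α m * β n * κ p (m * n)|
      ≤ (J + 1) * (A * √(((M : ℝ) + D) * (((x / M : ℕ) : ℝ) + D)
          * (∑ m ∈ Ioc M (2 * M), α m ^ 2) * (∑ n ∈ Ioc 0 (x / M), β n ^ 2))) := by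
  have hbil' : ∀ M₁ M₂ N₁ N₂ : ℕ, M₁ ≤ M₂ → N₁ ≤ N₂ →
      ∑ p ∈ P, |∑ m ∈ Ioc M₁ M₂, ∑ n ∈ Ioc N₁ N₂, α m * β n * κ p (m * n)|
        ≤ A * HY_bd D α β M₁ M₂ N₁ N₂ := hbil
  have htri : ∀ j : ℕ, ∀ m₀ m₁ : ℕ, 0 < m₀ → m₀ ≤ m₁ → m₁ - m₀ ≤ 2 ^ j →
      ∑ p ∈ P, |∑ m ∈ Ioc m₀ m₁, ∑ n ∈ Ioc (x / m₁) (x / m), α m * β n * κ p (m * n)|
        ≤ j * (A * HY_bd D α β m₀ m₁ (x / m₁) (x / m₀)) := by
    intro j
    induction j with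
    | zero =>
      intro m₀ m₁ hm0 hm h
      rw [pow_zero] at h
      have hz : ∀ p ∈ P, |∑ m ∈ Ioc m₀ m₁, ∑ n ∈ Ioc (x / m₁) (x / m), α m * β n * κ p (m * n)|
          = 0 := by
        intro p _
        rw [abs_eq_zero]
        refine sum_eq_zero fun m hm' => ?_
        rw [mem_Ioc] at hm'
        have : m = m₁ := by omega
        rw [this, Ioc_self, sum_empty]
      rw [sum_congr rfl hz, sum_const_zero]
      simp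
    | succ j ih =>
      intro m₀ m₁ hm0 hm h
      rw [pow_succ] at h
      obtain ⟨mc, hc1, hc2, hc3, hc4⟩ : ∃ mc, m₀ ≤ mc ∧ mc ≤ m₁ ∧ mc - m₀ ≤ 2 ^ j ∧
          m₁ - mc ≤ 2 ^ j := by
        refine ⟨m₀ + (m₁ - m₀) / 2, by omega, by omega, by omega, by omega⟩
      have hmc0 : 0 < mc := by omega
      have hx1 : x / m₁ ≤ x / mc := Nat.div_le_div_left hc2 hmc0
      have hx2 : x / mc ≤ x / m₀ := Nat.div_le_div_left hc1 hm0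
      have hsplit : ∀ p, ∑ m ∈ Ioc m₀ m₁, ∑ n ∈ Ioc (x / m₁) (x / m), α m * β n * κ p (m * n)
          = ∑ m ∈ Ioc m₀ mc, ∑ n ∈ Ioc (x / mc) (x / m), α m * β n * κ p (m * n)
            + ∑ m ∈ Ioc mc m₁, ∑ n ∈ Ioc (x / m₁) (x / m), α m * β n * κ p (m * n)
            + ∑ m ∈ Ioc m₀ mc, ∑ n ∈ Ioc (x / m₁) (x / mc), α m * β n * κ p (m * n) := by
        intro p
        rw [← sum_Ioc_consecutive _ hc1 hc2]
        have e : ∀ m ∈ Ioc m₀ mc, ∑ n ∈ Ioc (x / m₁) (x / m), α m * β n * κ p (m * n)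
            = ∑ n ∈ Ioc (x / mc) (x / m), α m * β n * κ p (m * n)
              + ∑ n ∈ Ioc (x / m₁) (x / mc), α m * β n * κ p (m * n) := by
          intro m hm'
          rw [mem_Ioc] at hm'
          rw [add_comm]
          exact (sum_Ioc_consecutive _ hx1 (Nat.div_le_div_left hm'.2 (by omega))).symm
        rw [sum_congr rfl e, sum_add_distrib]
        ring
      simp_rw [hsplit]
      have h1 := ih m₀ mc hm0 hc1 hc3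
      have h2 := ih mc m₁ hmc0 hc2 hc4
      have h3 := hbil' m₀ mc (x / m₁) (x / mc) hc1 hx1
      have h4 : A * HY_bd D α β m₀ mc (x / m₁) (x / mc) ≤ A * HY_bd D α β m₀ m₁ (x / m₁) (x / m₀) :=
        mul_le_mul_of_nonneg_left (HY_bd_mono D hD α β le_rfl hc2 le_rfl hx2) hA
      have h5 : A * HY_bd D α β m₀ mc (x / mc) (x / m₀) + A * HY_bd D α β mc m₁ (x / m₁) (x / mc)
          ≤ A * HY_bd D α β m₀ m₁ (x / m₁) (x / m₀) := by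
        rw [← mul_add]
        exact mul_le_mul_of_nonneg_left (HY_bd_add D hD α β hc1 hc2 hx1 hx2) hA
      have hj : (0 : ℝ) ≤ j := Nat.cast_nonneg j
      calc _ ≤ ∑ p ∈ P, (|∑ m ∈ Ioc m₀ mc, ∑ n ∈ Ioc (x / mc) (x / m), α m * β n * κ p (m * n)|
            + |∑ m ∈ Ioc mc m₁, ∑ n ∈ Ioc (x / m₁) (x / m), α m * β n * κ p (m * n)|
            + |∑ m ∈ Ioc m₀ mc, ∑ n ∈ Ioc (x / m₁) (x / mc), α m * β n * κ p (m * n)|) :=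
            sum_le_sum fun p _ => (abs_add_le _ _).trans (add_le_add_left (abs_add_le _ _) _)
        _ ≤ j * (A * HY_bd D α β m₀ mc (x / mc) (x / m₀))
            + j * (A * HY_bd D α β mc m₁ (x / m₁) (x / mc))
            + A * HY_bd D α β m₀ mc (x / m₁) (x / mc) := by
            rw [sum_add_distrib, sum_add_distrib]
            exact add_le_add (add_le_add h1 h2) h3
        _ ≤ j * (A * HY_bd D α β m₀ m₁ (x / m₁) (x / m₀))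
            + A * HY_bd D α β m₀ m₁ (x / m₁) (x / m₀) := by
            refine add_le_add ?_ h4
            rw [← mul_add]
            exact mul_le_mul_of_nonneg_left h5 hj
        _ = _ := by push_cast; ring
  have hx : x / (2 * M) ≤ x / M := Nat.div_le_div_left (by omega) hM
  have hsplit : ∀ p, ∑ m ∈ Ioc M (2 * M), ∑ n ∈ Ioc 0 (x / m), α m * β n * κ p (m * n)
      = ∑ m ∈ Ioc M (2 * M), ∑ n ∈ Ioc (x / (2 * M)) (x / m), α m * β n * κ p (m * n)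
        + ∑ m ∈ Ioc M (2 * M), ∑ n ∈ Ioc 0 (x / (2 * M)), α m * β n * κ p (m * n) := by
    intro p
    rw [← sum_add_distrib]
    refine sum_congr rfl fun m hm' => ?_
    rw [mem_Ioc] at hm'
    rw [add_comm]
    exact (sum_Ioc_consecutive _ (Nat.zero_le _) (Nat.div_le_div_left hm'.2 (by omega))).symm
  simp_rw [hsplit]
  have h1 := htri J M (2 * M) hM (by omega) (by omega)
  have h2 := hbil' M (2 * M) 0 (x / (2 * M)) (by omega) (Nat.zero_le _)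
  have e : A * √(((M : ℝ) + D) * (((x / M : ℕ) : ℝ) + D)
          * (∑ m ∈ Ioc M (2 * M), α m ^ 2) * (∑ n ∈ Ioc 0 (x / M), β n ^ 2))
      = A * HY_bd D α β M (2 * M) 0 (x / M) := by
    rw [HY_bd, (by omega : 2 * M - M = M), Nat.sub_zero]
  rw [e]
  have h3 : A * HY_bd D α β M (2 * M) (x / (2 * M)) (x / M) ≤ A * HY_bd D α β M (2 * M) 0 (x / M) :=
    mul_le_mul_of_nonneg_left (HY_bd_mono D hD α β le_rfl le_rfl (Nat.zero_le _) le_rfl) hA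
  have h4 : A * HY_bd D α β M (2 * M) 0 (x / (2 * M)) ≤ A * HY_bd D α β M (2 * M) 0 (x / M) :=
    mul_le_mul_of_nonneg_left (HY_bd_mono D hD α β le_rfl le_rfl le_rfl hx) hA
  have hj : (0 : ℝ) ≤ J := Nat.cast_nonneg J
  calc _ ≤ ∑ p ∈ P, (|∑ m ∈ Ioc M (2 * M), ∑ n ∈ Ioc (x / (2 * M)) (x / m), α m * β n * κ p (m * n)|
        + |∑ m ∈ Ioc M (2 * M), ∑ n ∈ Ioc 0 (x / (2 * M)), α m * β n * κ p (m * n)|) :=
        sum_le_sum fun p _ => abs_add_le _ _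
    _ ≤ J * (A * HY_bd D α β M (2 * M) (x / (2 * M)) (x / M))
        + A * HY_bd D α β M (2 * M) 0 (x / (2 * M)) := by
        rw [sum_add_distrib]
        exact add_le_add h1 h2
    _ ≤ J * (A * HY_bd D α β M (2 * M) 0 (x / M)) + A * HY_bd D α β M (2 * M) 0 (x / M) :=
        add_le_add (mul_le_mul_of_nonneg_left h3 hj) h4
    _ = _ := by ring

end Pool.Agent.helper85.SQ
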