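import Pool.Agent.helper85.SQ.Defs
import Pool.Agent.helper85.BVP.Second

/-!
# Upper bound sieve for `a q₁² - 1`, `a q₂² - 1` both prime
-/

namespace Pool.Agent.helper85.SQ

open Finset ArithmeticFunction Pool.Agent.helper85.BVP

/-! ### sq:BO (both) -/
theorem both_sq : ∃ (C : ℝ) (D : ℕ), 0 < C ∧ ∀ N : ℕ, D ≤ N → ∀ q₁ q₂ : ℕ,
    q₁.Prime → q₂.Prime → q₁ < q₂ →
    (#{a ∈ Ioc 0 N | (a * q₁ ^ 2 - 1).Prime ∧ (a * q₂ ^ 2 - 1).Prime} : ℝ)
      ≤ C * (N / Real.log N ^ 2) * h (q₂ ^ 2 - q₁ ^ 2) ^ 2 := by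
  classical
  obtain ⟨C, D, hC, hCD⟩ := two_forms
  refine ⟨64 * C + 32, max D 2, by positivity, ?_⟩
  intro N hN q₁ q₂ hq₁ hq₂ hlt
  have hN2 : 2 ≤ N := le_trans (le_max_right _ _) hN
  obtain ⟨z, hz2, hzN, hz⟩ := hCD N (le_trans (le_max_left _ _) hN)
  have hNr : (0 : ℝ) < N := by exact_mod_cast (by omega : 0 < N)
  have hlogN : 0 < Real.log N := Real.log_pos (by exact_mod_cast (by omega : 1 < N))
  have hqq0 : q₁ * q₂ ≠ 0 := Nat.mul_ne_zero hq₁.ne_zero hq₂.ne_zero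
  have hlt2 : q₁ ^ 2 < q₂ ^ 2 := Nat.pow_lt_pow_left hlt (by norm_num)
  set d := q₂ ^ 2 - q₁ ^ 2 with hd
  have hd0 : d ≠ 0 := by omega
  set E := 2 * (q₁ * q₂ * d) with hE
  have hE0 : E ≠ 0 := by
    rw [hE]
    exact Nat.mul_ne_zero (by norm_num) (Nat.mul_ne_zero hqq0 hd0)
  set S : Finset ℕ := {a ∈ Ioc 0 N | (a * q₁ ^ 2 - 1).Prime ∧ (a * q₂ ^ 2 - 1).Prime} with hSdef
  have hS : ∀ b ∈ S, b ∈ Ioc 0 N ∧ (b * q₁ ^ 2 - 1).Prime ∧ (b * q₂ ^ 2 - 1).Prime := by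
    intro b hb
    rw [hSdef, mem_filter] at hb
    exact hb
  set S' := S.filter (fun b : ℕ => z < b * q₁ ^ 2 - 1 ∧ z < b * q₂ ^ 2 - 1) with hS'
  have hcast : ∀ b q : ℕ, 0 < b → q.Prime → ((b * q ^ 2 - 1 : ℕ) : ℤ) = ((q ^ 2 : ℕ) : ℤ) * b + -1 := by
    intro b q hb hq
    have : 1 ≤ b * q ^ 2 := Nat.mul_pos hb (pow_pos hq.pos 2)
    rw [Nat.cast_sub this]
    push_cast
    ring
  have h1 : (#S' : ℝ) ≤ C * (h E ^ 2 * (N / Real.log N ^ 2)) := by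
    refine hz (q₁ ^ 2) (q₂ ^ 2) (-1) (-1) E hE0 (dvd_mul_right 2 _) ?_ S' ?_
    · intro l hl hlE
      refine ⟨fun h => hlE ?_, fun h => hlE ?_, fun h => hlE ?_⟩
      · have h := hl.dvd_of_dvd_pow h
        exact (((h.mul_right q₂).mul_right d)).mul_left 2
      · have h := hl.dvd_of_dvd_pow h
        exact (((h.mul_left q₁).mul_right d)).mul_left 2
      · have e1 : ((q₁ ^ 2 : ℕ) : ℤ) * (-1) - ((q₂ ^ 2 : ℕ) : ℤ) * (-1) = (d : ℤ) := by
          rw [hd, Nat.cast_sub hlt2.le]; ring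
        rw [e1] at h
        have h3 : l ∣ d := by exact_mod_cast h
        exact ((h3.mul_left (q₁ * q₂))).mul_left 2
    · intro b hb
      rw [hS', mem_filter] at hb
      obtain ⟨hbS, hz1, hz2'⟩ := hb
      obtain ⟨hbI, hp₁, hp₂⟩ := hS b hbS
      have hb0 : 0 < b := (mem_Ioc.mp hbI).1
      refine ⟨hbI, ?_⟩
      intro l hl hlz hlE
      have hgen : ∀ q : ℕ, q.Prime → (b * q ^ 2 - 1).Prime → z < b * q ^ 2 - 1 →
          ¬ (l : ℤ) ∣ (((q ^ 2 : ℕ) : ℤ) * b + -1) := by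
        intro q hq hp hzp h
        rw [← hcast b q hb0 hq] at h
        have h4 : l ∣ b * q ^ 2 - 1 := by exact_mod_cast h
        have := (Nat.prime_dvd_prime_iff_eq hl hp).mp h4
        omega
      exact ⟨hgen q₁ hq₁ hp₁ hz1, hgen q₂ hq₂ hp₂ hz2'⟩
  -- the exceptional `b`
  have hexc : ∀ q : ℕ, q.Prime → #(S.filter (fun b : ℕ => b * q ^ 2 - 1 ≤ z)) ≤ z := by
    intro q hq
    have : #(S.filter (fun b : ℕ => b * q ^ 2 - 1 ≤ z)) ≤ #(Ioc 0 z) := by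
      refine card_le_card ?_
      intro b hb
      rw [mem_filter] at hb
      have hb0 : 0 < b := (mem_Ioc.mp (hS b hb.1).1).1
      rw [mem_Ioc]
      refine ⟨hb0, ?_⟩
      have h4 : 2 ^ 2 ≤ q ^ 2 := Nat.pow_le_pow_left hq.two_le 2
      have h5 : b * 2 ^ 2 ≤ b * q ^ 2 := Nat.mul_le_mul_left b h4
      omega
    rwa [Nat.card_Ioc, Nat.sub_zero] at this
  have h2 : #S ≤ #S' + (z + z) := by
    have h3 : S ⊆ S' ∪ (S.filter (fun b : ℕ => b * q₁ ^ 2 - 1 ≤ z)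
        ∪ S.filter (fun b : ℕ => b * q₂ ^ 2 - 1 ≤ z)) := by
      intro b hb
      by_cases h : z < b * q₁ ^ 2 - 1
      · by_cases h' : z < b * q₂ ^ 2 - 1
        · exact mem_union_left _ (mem_filter.mpr ⟨hb, h, h'⟩)
        · exact mem_union_right _ (mem_union_right _ (mem_filter.mpr ⟨hb, not_lt.mp h'⟩))
      · exact mem_union_right _ (mem_union_left _ (mem_filter.mpr ⟨hb, not_lt.mp h⟩))
    refine (card_le_card h3).trans ((card_union_le _ _).trans ?_)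
    exact Nat.add_le_add_left ((card_union_le _ _).trans (Nat.add_le_add (hexc q₁ hq₁) (hexc q₂ hq₂))) _
  have h3 : (#S : ℝ) ≤ #S' + (z + z) := by exact_mod_cast h2
  have h4 : (z : ℝ) ≤ 16 * (N / Real.log N ^ 2) := (le_sqrt_nat hzN).trans (sqrt_le_div N hN2)
  -- `h E`
  have hh2 : ∀ l : ℕ, l.Prime → h l ≤ 2 := by
    intro l hl
    have := h_prime_pow (l := l) (j := 1) hl
    simpa using this
  have hd1 := one_le_h d
  have hEle : h E ≤ 8 * h d := by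
    have a1 : h E ≤ h 2 * h (q₁ * q₂ * d) :=
      h_mul_le (by norm_num) (Nat.mul_ne_zero hqq0 hd0)
    have a3 : h (q₁ * q₂ * d) ≤ h (q₁ * q₂) * h d := h_mul_le hqq0 hd0
    have a4 : h (q₁ * q₂) ≤ h q₁ * h q₂ := h_mul_le hq₁.ne_zero hq₂.ne_zero
    have a5 : h q₁ * h q₂ ≤ 2 * 2 := mul_le_mul (hh2 q₁ hq₁) (hh2 q₂ hq₂) (h_pos _).le (by norm_num)
    have a6 : h (q₁ * q₂) * h d ≤ 4 * h d := by
      refine mul_le_mul_of_nonneg_right (by linarith) (h_pos _).le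
    calc h E ≤ h 2 * h (q₁ * q₂ * d) := a1
      _ ≤ 2 * (4 * h d) :=
          mul_le_mul (hh2 2 Nat.prime_two) (a3.trans a6) (h_pos _).le (by norm_num)
      _ = _ := by ring
  have h5 : h E ^ 2 ≤ 64 * h d ^ 2 := by
    calc h E ^ 2 ≤ (8 * h d) ^ 2 := pow_le_pow_left₀ (h_pos _).le hEle 2
      _ = _ := by ring
  have h6 : (1 : ℝ) ≤ h d ^ 2 := one_le_pow₀ hd1
  have h7 : 0 ≤ (N : ℝ) / Real.log N ^ 2 := by positivity
  calc (#S : ℝ) ≤ #S' + (z + z) := h3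
    _ ≤ C * (64 * h d ^ 2 * (N / Real.log N ^ 2))
        + 32 * (h d ^ 2 * (N / Real.log N ^ 2)) := by
        refine add_le_add (h1.trans ?_) ?_
        · refine mul_le_mul_of_nonneg_left ?_ hC.le
          exact mul_le_mul_of_nonneg_right h5 h7
        · have : (N : ℝ) / Real.log N ^ 2 ≤ h d ^ 2 * (N / Real.log N ^ 2) := by nlinarith
          linarith
    _ = _ := by ring

end Pool.Agent.helper85.SQ
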